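import Mathlib
import Pool.Agent.Helper89.Vol.Goals

/-!
Packet V36-LV (MP_cd13d2_co).
-/

set_option autoImplicit false

namespace Pool.Agent.Helper4.Vol.PkLV

open MeasureTheory Set Pool.Agent.Helper86.Poly Pool.Agent.Helper89.Vol

/-- the functional `a p0 + b p1` -/
noncomputable def fn (a b : ℝ) : E 3 →ₗ[ℝ] ℝ :=
  (a • (EuclideanSpace.proj (0 : Fin 3) : E 3 →L[ℝ] ℝ) +
    b • (EuclideanSpace.proj (1 : Fin 3) : E 3 →L[ℝ] ℝ)).toLinearMap

theorem fn_apply (a b : ℝ) (p : E 3) : fn a b p = a * p 0 + b * p 1 := by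
  simp [fn]

theorem null {a b : ℝ} (ha : a ≠ 0) : volume {p : E 3 | a * p 0 + b * p 1 = 0} = 0 := by
  have h1 : (LinearMap.ker (fn a b)) ≠ ⊤ := by
    intro h
    have h2 : (!₂[1, 0, 0] : E 3) ∈ LinearMap.ker (fn a b) := by
      rw [h]
      trivial
    rw [LinearMap.mem_ker, fn_apply] at h2
    simp at h2
    exact ha h2
  have h2 := Measure.addHaar_submodule (volume : Measure (E 3)) _ h1
  have h3 : {p : E 3 | a * p 0 + b * p 1 = 0} = (LinearMap.ker (fn a b) : Set (E 3)) := by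
    ext p
    rw [mem_setOf_eq, SetLike.mem_coe, LinearMap.mem_ker, fn_apply]
  rw [h3]
  exact h2

theorem sub_le {a b : ℝ} {p : Fin 4 → E 3} (h : ∀ i, a * p i 0 + b * p i 1 ≤ 0) :
    convexHull ℝ (range p) ⊆ {q : E 3 | a * q 0 + b * q 1 ≤ 0} := by
  have e : {q : E 3 | a * q 0 + b * q 1 ≤ 0} = {q : E 3 | fn a b q ≤ 0} := by
    ext q
    rw [mem_setOf_eq, mem_setOf_eq, fn_apply]
  apply convexHull_min
  · rintro _ ⟨i, rfl⟩
    exact h i
  · rw [e]
    exact convex_halfSpace_le (fn a b).isLinear 0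

theorem sub_ge {a b : ℝ} {p : Fin 4 → E 3} (h : ∀ i, 0 ≤ a * p i 0 + b * p i 1) :
    convexHull ℝ (range p) ⊆ {q : E 3 | 0 ≤ a * q 0 + b * q 1} := by
  have e : {q : E 3 | 0 ≤ a * q 0 + b * q 1} = {q : E 3 | 0 ≤ fn a b q} := by
    ext q
    rw [mem_setOf_eq, mem_setOf_eq, fn_apply]
  apply convexHull_min
  · rintro _ ⟨i, rfl⟩
    exact h i
  · rw [e]
    exact convex_halfSpace_ge (fn a b).isLinear 0

theorem meas (p : Fin 4 → E 3) : MeasurableSet (convexHull ℝ (range p)) :=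
  ((finite_range p).isCompact_convexHull ℝ).measurableSet

/-- Packet V36-LV. -/
theorem thm (hSV : G_SV) : G_LV := by
  intro N hN
  obtain ⟨hN0, hN1⟩ := hN
  set M := √(3 / 4 - N ^ 2) with hM
  set r := √(1 - (1 / 2 + N) ^ 2) with hr
  have hN2 : N ^ 2 ≤ 1 / 4 := by nlinarith
  have hM2 : M ^ 2 = 3 / 4 - N ^ 2 := Real.sq_sqrt (by linarith)
  have hr2 : r ^ 2 = 1 - (1 / 2 + N) ^ 2 := Real.sq_sqrt (by nlinarith)
  have hr0 : 0 ≤ r := Real.sqrt_nonneg _
  have hM0 : 0 < M := Real.sqrt_pos.2 (by linarith)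
  have hh1 : hh N = M - r := rfl
  have hMr : r ≤ M := by
    have : r ^ 2 ≤ M ^ 2 := by
      rw [hM2, hr2]
      nlinarith
    exact (sq_le_sq₀ hr0 hM0.le).1 this
  have hNh : N * (M - r) ≤ M / 2 := by nlinarith
  have hNh0 : 0 ≤ N * (M - r) := mul_nonneg hN0 (by linarith)
  have hNM : 0 ≤ N * M := mul_nonneg hN0 hM0.le
  have hf : f N = M + 2 * (N * r) := by
    have : √(4 - (1 + 2 * N) ^ 2) = 2 * r := by
      rw [show 4 - (1 + 2 * N) ^ 2 = 2 ^ 2 * (1 - (1 / 2 + N) ^ 2) by ring,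
        Real.sqrt_mul (by norm_num), Real.sqrt_sq (by norm_num)]
    rw [f, this]
    ring
  set q0 : E 3 := !₂[0, 0, 0] with hq0
  set q1 : E 3 := !₂[0, 0, 1] with hq1
  set q2 : E 3 := !₂[-(1 / 2), M - r, 1 / 2] with hq2
  set q3 : E 3 := !₂[-N, M, 1 / 2] with hq3
  set q4 : E 3 := !₂[N, M, 1 / 2] with hq4
  set q5 : E 3 := !₂[1 / 2, M - r, 1 / 2] with hq5
  have hQ : Q N = ![q0, q1, q2, q3, q4, q5] := rfl
  set p1 : Fin 4 → E 3 := ![q0, q1, q2, q3] with hp1
  set p2 : Fin 4 → E 3 := ![q0, q1, q3, q4] with hp2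
  set p3 : Fin 4 → E 3 := ![q0, q1, q4, q5] with hp3
  have v1 : 6 * volume (convexHull ℝ (range p1)) = ENNReal.ofReal (M / 2 - N * (M - r)) := by
    have h1 := hSV 3 p1
    have h2 : Matrix.det (Matrix.of fun i j : Fin 3 => p1 i.succ j - p1 0 j) =
        -(M / 2 - N * (M - r)) := by
      rw [Matrix.det_fin_three]
      simp [hp1, hq0, hq1, hq2, hq3]
      ring
    rw [h2, abs_neg, abs_of_nonneg (by linarith)] at h1
    rw [← h1]
    norm_num [Nat.factorial]
  have v2 : 6 * volume (convexHull ℝ (range p2)) = ENNReal.ofReal (2 * (N * M)) := by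
    have h1 := hSV 3 p2
    have h2 : Matrix.det (Matrix.of fun i j : Fin 3 => p2 i.succ j - p2 0 j) =
        -(2 * (N * M)) := by
      rw [Matrix.det_fin_three]
      simp [hp2, hq0, hq1, hq3, hq4]
      ring
    rw [h2, abs_neg, abs_of_nonneg (by linarith)] at h1
    rw [← h1]
    norm_num [Nat.factorial]
  have v3 : 6 * volume (convexHull ℝ (range p3)) = ENNReal.ofReal (M / 2 - N * (M - r)) := by
    have h1 := hSV 3 p3
    have h2 : Matrix.det (Matrix.of fun i j : Fin 3 => p3 i.succ j - p3 0 j) =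
        -(M / 2 - N * (M - r)) := by
      rw [Matrix.det_fin_three]
      simp [hp3, hq0, hq1, hq4, hq5]
      ring
    rw [h2, abs_neg, abs_of_nonneg (by linarith)] at h1
    rw [← h1]
    norm_num [Nat.factorial]
  have s1 : convexHull ℝ (range p1) ⊆ {q : E 3 | M * q 0 + N * q 1 ≤ 0} := by
    apply sub_le
    intro i
    fin_cases i <;> simp [hp1, hq0, hq1, hq2, hq3] <;> linarith
  have s2 : convexHull ℝ (range p2) ⊆ {q : E 3 | 0 ≤ M * q 0 + N * q 1} := by
    apply sub_ge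
    intro i
    fin_cases i <;> simp [hp2, hq0, hq1, hq3, hq4] <;> linarith
  have s3 : convexHull ℝ (range p3) ⊆ {q : E 3 | 0 ≤ M * q 0 + N * q 1} := by
    apply sub_ge
    intro i
    fin_cases i <;> simp [hp3, hq0, hq1, hq4, hq5] <;> linarith
  have s4 : convexHull ℝ (range p2) ⊆ {q : E 3 | M * q 0 + (-N) * q 1 ≤ 0} := by
    apply sub_le
    intro i
    fin_cases i <;> simp [hp2, hq0, hq1, hq3, hq4] <;> linarith
  have s5 : convexHull ℝ (range p3) ⊆ {q : E 3 | 0 ≤ M * q 0 + (-N) * q 1} := by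
    apply sub_ge
    intro i
    fin_cases i <;> simp [hp3, hq0, hq1, hq4, hq5] <;> linarith
  have d1 : AEDisjoint volume (convexHull ℝ (range p1))
      (convexHull ℝ (range p2) ∪ convexHull ℝ (range p3)) := by
    refine measure_mono_null ?_ (null (a := M) (b := N) hM0.ne')
    rintro q ⟨h1, h2⟩
    have h3 : 0 ≤ M * q 0 + N * q 1 := by
      rcases h2 with h2 | h2
      · exact s2 h2
      · exact s3 h2
    exact le_antisymm (s1 h1) h3
  have d2 : AEDisjoint volume (convexHull ℝ (range p2)) (convexHull ℝ (range p3)) := by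
    refine measure_mono_null ?_ (null (a := M) (b := -N) hM0.ne')
    rintro q ⟨h1, h2⟩
    exact le_antisymm (s4 h1) (s5 h2)
  have hsum : volume (convexHull ℝ (range p1) ∪
      (convexHull ℝ (range p2) ∪ convexHull ℝ (range p3))) =
      volume (convexHull ℝ (range p1)) + (volume (convexHull ℝ (range p2)) +
        volume (convexHull ℝ (range p3))) := by
    rw [measure_union₀ ((meas p2).union (meas p3)).nullMeasurableSet d1,
      measure_union₀ (meas p3).nullMeasurableSet d2]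
  have hsub : convexHull ℝ (range p1) ∪
      (convexHull ℝ (range p2) ∪ convexHull ℝ (range p3)) ⊆ convexHull ℝ (range (Q N)) := by
    have m0 : q0 ∈ range (Q N) := ⟨0, rfl⟩
    have m1 : q1 ∈ range (Q N) := ⟨1, rfl⟩
    have m2 : q2 ∈ range (Q N) := ⟨2, rfl⟩
    have m3 : q3 ∈ range (Q N) := ⟨3, rfl⟩
    have m4 : q4 ∈ range (Q N) := ⟨4, rfl⟩
    have m5 : q5 ∈ range (Q N) := ⟨5, rfl⟩
    refine union_subset (convexHull_mono ?_) (union_subset (convexHull_mono ?_)
      (convexHull_mono ?_))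
    · rintro _ ⟨i, rfl⟩
      fin_cases i
      · exact m0
      · exact m1
      · exact m2
      · exact m3
    · rintro _ ⟨i, rfl⟩
      fin_cases i
      · exact m0
      · exact m1
      · exact m3
      · exact m4
    · rintro _ ⟨i, rfl⟩
      fin_cases i
      · exact m0
      · exact m1
      · exact m4
      · exact m5
  calc ENNReal.ofReal (f N) = ENNReal.ofReal (M / 2 - N * (M - r)) +
        (ENNReal.ofReal (2 * (N * M)) + ENNReal.ofReal (M / 2 - N * (M - r))) := by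
        rw [← ENNReal.ofReal_add (by linarith) (by linarith),
          ← ENNReal.ofReal_add (by linarith) (by linarith), hf]
        congr 1
        ring
    _ = 6 * volume (convexHull ℝ (range p1) ∪
      (convexHull ℝ (range p2) ∪ convexHull ℝ (range p3))) := by
        rw [hsum, mul_add, mul_add, v1, v2, v3]
    _ ≤ 6 * volume (convexHull ℝ (range (Q N))) := by
        gcongr

end Pool.Agent.Helper4.Vol.PkLV
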